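import Pool.Agent.K4H72.Til.Spec

open Set Filter Topology

namespace Pool.Agent.K4H59.TL

open Pool.Agent.K4H72.Til

namespace N1

theorem fun_eq (f : ℂ →L[ℝ] ℝ) (w : ℂ) : f w = f 1 * w.re + f Complex.I * w.im := by
  have h : w = w.re • (1 : ℂ) + w.im • Complex.I := by
    simp [Complex.re_add_im]
  calc f w = f (w.re • (1 : ℂ) + w.im • Complex.I) := by rw [← h]
    _ = f 1 * w.re + f Complex.I * w.im := by
      rw [map_add, map_smul, map_smul]; simp; ring

theorem fun_perp (f : ℂ →L[ℝ] ℝ) (d : ℂ) (hd : d ≠ 0) (hf : f d = 0) :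
    ∃ a : ℝ, ∀ w : ℂ, f w = a * (d.re * w.im - d.im * w.re) := by
  have hn : d.re ^ 2 + d.im ^ 2 ≠ 0 := by
    intro h
    apply hd
    have h1 : d.re = 0 := by nlinarith [sq_nonneg d.re, sq_nonneg d.im]
    have h2 : d.im = 0 := by nlinarith [sq_nonneg d.re, sq_nonneg d.im]
    exact Complex.ext h1 h2
  rw [fun_eq] at hf
  refine ⟨(f Complex.I * d.re - f 1 * d.im) / (d.re ^ 2 + d.im ^ 2), ?_⟩
  intro w
  rw [fun_eq, div_mul_eq_mul_div, eq_div_iff hn]
  linear_combination (d.re * w.re + d.im * w.im) * hf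

theorem prop (f m : ℂ →L[ℝ] ℝ) (d : ℂ) (hd : d ≠ 0) (hf : f d = 0) (hm : m d = 0) (hm0 : m ≠ 0) :
    ∃ c : ℝ, ∀ w : ℂ, f w = c * m w := by
  obtain ⟨a, ha⟩ := fun_perp f d hd hf
  obtain ⟨b, hb⟩ := fun_perp m d hd hm
  have hb0 : b ≠ 0 := by
    rintro rfl
    apply hm0
    ext w
    simp [hb]
  refine ⟨a / b, fun w => ?_⟩
  rw [ha, hb]
  field_simp

theorem zero_of_max (m : ℂ →L[ℝ] ℝ) (z : ℂ) (h : ∀ᶠ w in 𝓝 z, m w ≤ m z) : m = 0 := by
  have h1 : IsLocalMax (m : ℂ → ℝ) z := h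
  have h2 := h1.fderiv_eq_zero
  rwa [ContinuousLinearMap.fderiv] at h2

theorem half (A : Set ℂ) (hA : IsPolygon A) (m : ℂ →L[ℝ] ℝ) (hm : m ≠ 0) (x y : ℂ)
    (hx : x ∈ A) (hy : y ∈ A) (hxy : x ≠ y) (hmxy : m x = m y) (hmax : ∀ w ∈ A, m w ≤ m x) :
    ∀ᶠ w in 𝓝 ((1 / 2 : ℝ) • (x + y)), m w < m x → w ∈ A := by
  obtain ⟨hne, -, hint, s, hs0, hs⟩ := hA
  have key : ∀ p ∈ s, ∀ᶠ w in 𝓝 ((1 / 2 : ℝ) • (x + y)), m w < m x → p.1 w ≤ p.2 := by
    intro p hp
    have h1 : p.1 x ≤ p.2 := by rw [hs] at hx; exact hx p hp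
    have h2 : p.1 y ≤ p.2 := by rw [hs] at hy; exact hy p hp
    have h3 : p.1 ((1 / 2 : ℝ) • (x + y)) = 1 / 2 * (p.1 x + p.1 y) := by
      rw [map_smul, map_add]; simp
    rcases lt_or_ge (p.1 ((1 / 2 : ℝ) • (x + y))) p.2 with h | h
    · have h4 : ∀ᶠ w in 𝓝 ((1 / 2 : ℝ) • (x + y)), p.1 w < p.2 :=
        p.1.continuous.continuousAt.eventually (gt_mem_nhds h)
      exact h4.mono fun w hw _ => hw.le
    · have h5 : p.1 x = p.2 := by rw [h3] at h; linarith
      have h6 : p.1 y = p.2 := by rw [h3] at h; linarith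
      obtain ⟨c, hc⟩ := prop p.1 m (x - y) (sub_ne_zero.mpr hxy) (by rw [map_sub, h5, h6, sub_self])
        (by rw [map_sub, hmxy, sub_self]) hm
      rcases le_or_gt 0 c with hc0 | hc0
      · refine Eventually.of_forall fun w hw => ?_
        rw [hc, ← h5, hc]
        exact mul_le_mul_of_nonneg_left hw.le hc0
      · exfalso
        have hcon : ∀ w ∈ A, m w = m x := by
          intro w hw
          refine le_antisymm (hmax w hw) ?_
          have h7 : p.1 w ≤ p.2 := by rw [hs] at hw; exact hw p hp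
          rw [hc, ← h5, hc] at h7
          nlinarith
        obtain ⟨a, ha⟩ := hne
        have h8 : (interior A).Nonempty := by
          rcases (interior A).eq_empty_or_nonempty with h9 | h9
          · rw [h9, closure_empty] at hint
            exact absurd (hint ha) (by simp)
          · exact h9
        obtain ⟨b, hb⟩ := h8
        apply hm
        refine zero_of_max m b ?_
        have h10 : A ∈ 𝓝 b := mem_interior_iff_mem_nhds.mp hb
        filter_upwards [h10] with w hw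
        rw [hcon w hw, hcon b (interior_subset hb)]
  have h11 : ∀ᶠ w in 𝓝 ((1 / 2 : ℝ) • (x + y)), ∀ p ∈ s, m w < m x → p.1 w ≤ p.2 :=
    (Filter.eventually_all_finset s).mpr key
  filter_upwards [h11] with w hw hlt
  rw [hs]
  exact fun p hp => hw p hp hlt

/-- two polygons on the same side of a common edge have a common interior point -/
theorem meet (A B : Set ℂ) (hA : IsPolygon A) (hB : IsPolygon B) (m : ℂ →L[ℝ] ℝ) (hm : m ≠ 0)
    (x y : ℂ) (hxA : x ∈ A) (hyA : y ∈ A) (hxB : x ∈ B) (hyB : y ∈ B) (hxy : x ≠ y)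
    (hmxy : m x = m y) (hmA : ∀ w ∈ A, m w ≤ m x) (hmB : ∀ w ∈ B, m w ≤ m x) :
    ¬ Disjoint (interior A) (interior B) := by
  intro hdis
  set z : ℂ := (1 / 2 : ℝ) • (x + y) with hz
  have hmz : m z = m x := by
    rw [hz, map_smul, map_add, ← hmxy]; simp; ring
  have h1 := half A hA m hm x y hxA hyA hxy hmxy hmA
  have h2 := half B hB m hm x y hxB hyB hxy hmxy hmB
  obtain ⟨V, hV, hVo, hzV⟩ := mem_nhds_iff.mp (h1.and h2)
  have hU : IsOpen (V ∩ {w | m w < m x}) := hVo.inter (isOpen_lt m.continuous continuous_const)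
  have hUA : V ∩ {w | m w < m x} ⊆ interior A :=
    interior_maximal (fun w hw => (hV hw.1).1 hw.2) hU
  have hUB : V ∩ {w | m w < m x} ⊆ interior B :=
    interior_maximal (fun w hw => (hV hw.1).2 hw.2) hU
  have hemp : V ∩ {w | m w < m x} = ∅ := by
    rw [Set.eq_empty_iff_forall_notMem]
    intro w hw
    exact Set.disjoint_left.mp hdis (hUA hw) (hUB hw)
  have h3 : ∀ᶠ w in 𝓝 z, (-m) w ≤ (-m) z := by
    filter_upwards [hVo.mem_nhds hzV] with w hw
    have : w ∉ V ∩ {w | m w < m x} := by rw [hemp]; simp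
    have h4 : ¬ m w < m x := fun h => this ⟨hw, h⟩
    simp only [ContinuousLinearMap.neg_apply]
    rw [hmz]; linarith
  have h5 := zero_of_max (-m) z h3
  exact hm (neg_eq_zero.mp h5)

/-- the position of a set with exposed face `e` with respect to the line of `e` -/
theorem side (B e : Set ℂ) (he : IsExposed ℝ B e) (heB : e ≠ B) (m : ℂ →L[ℝ] ℝ) (hm : m ≠ 0)
    (x y : ℂ) (hx : x ∈ e) (hy : y ∈ e) (hxy : x ≠ y) (hmxy : m x = m y) :
    (∀ w ∈ B, m w ≤ m x) ∨ (∀ w ∈ B, m x ≤ m w) := by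
  obtain ⟨l, hl⟩ := he ⟨x, hx⟩
  rw [hl] at hx hy
  have hlxy : l x = l y := le_antisymm (hy.2 x hx.1) (hx.2 y hy.1)
  obtain ⟨c, hc⟩ := prop l m (x - y) (sub_ne_zero.mpr hxy) (by rw [map_sub, hlxy, sub_self])
    (by rw [map_sub, hmxy, sub_self]) hm
  rcases lt_trichotomy c 0 with h | h | h
  · right
    intro w hw
    have := hx.2 w hw
    rw [hc, hc] at this
    nlinarith
  · exfalso
    apply heB
    rw [hl]
    ext w
    simp only [Set.mem_setOf_eq]
    constructor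
    · exact fun h => h.1
    · intro hw
      exact ⟨hw, fun v _ => by rw [hc, hc, h]; simp⟩
  · left
    intro w hw
    have := hx.2 w hw
    rw [hc, hc] at this
    nlinarith

/-- an edge of a polygon lies in the line of one of the constraints -/
theorem edge_eq (A e : Set ℂ) (s : Finset ((ℂ →L[ℝ] ℝ) × ℝ)) (hs0 : ∀ p ∈ s, p.1 ≠ 0)
    (hs : A = {z | ∀ p ∈ s, p.1 z ≤ p.2}) (he : IsExposed ℝ A e) (hen : e.Nontrivial)
    (heA : e ≠ A) : ∃ p ∈ s, e = {w | w ∈ A ∧ p.1 w = p.2} := by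
  obtain ⟨x, hx, y, hy, hxy⟩ := hen
  obtain ⟨l, hl⟩ := he ⟨x, hx⟩
  have hx' := hx
  have hy' := hy
  rw [hl] at hx' hy'
  have hlxy : l x = l y := le_antisymm (hy'.2 x hx'.1) (hx'.2 y hy'.1)
  have hl0 : l ≠ 0 := by
    rintro rfl
    apply heA
    rw [hl]
    ext w
    simp
  set z : ℂ := (1 / 2 : ℝ) • (x + y) with hz
  have hlz : l z = l x := by
    rw [hz, map_smul, map_add, ← hlxy]; simp; ring
  have hex : ∃ p ∈ s, p.2 ≤ p.1 z := by
    by_contra hcon
    push Not at hcon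
    apply hl0
    refine zero_of_max l z ?_
    have h1 : ∀ᶠ w in 𝓝 z, ∀ p ∈ s, p.1 w < p.2 :=
      (Filter.eventually_all_finset s).mpr fun p hp =>
        p.1.continuous.continuousAt.eventually (gt_mem_nhds (hcon p hp))
    filter_upwards [h1] with w hw
    rw [hlz]
    apply hx'.2
    rw [hs]
    exact fun p hp => (hw p hp).le
  obtain ⟨p, hp, hpz⟩ := hex
  have h1 : p.1 x ≤ p.2 := by have := hx'.1; rw [hs] at this; exact this p hp
  have h2 : p.1 y ≤ p.2 := by have := hy'.1; rw [hs] at this; exact this p hp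
  have h3 : p.1 z = 1 / 2 * (p.1 x + p.1 y) := by
    rw [hz, map_smul, map_add]; simp
  have h5 : p.1 x = p.2 := by rw [h3] at hpz; linarith
  have h6 : p.1 y = p.2 := by rw [h3] at hpz; linarith
  obtain ⟨c, hc⟩ := prop l p.1 (x - y) (sub_ne_zero.mpr hxy) (by rw [map_sub, hlxy, sub_self])
    (by rw [map_sub, h5, h6, sub_self]) (hs0 p hp)
  have hc0 : c ≠ 0 := by
    rintro rfl
    apply hl0
    ext w
    simp [hc]
  refine ⟨p, hp, ?_⟩
  ext w
  constructor
  · intro hw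
    rw [hl] at hw
    refine ⟨hw.1, ?_⟩
    have h7 : l w = l x := le_antisymm (hx'.2 w hw.1) (hw.2 x hx'.1)
    rw [hc, hc] at h7
    rw [← h5]
    exact mul_left_cancel₀ hc0 h7
  · rintro ⟨hwA, hw⟩
    rw [hl]
    refine ⟨hwA, fun v hv => ?_⟩
    have h7 : l w = l x := by rw [hc, hc, hw, h5]
    rw [h7]
    exact hx'.2 v hv

end N1

theorem nbr_finite {C : Type} {T : Set (Pool.Agent.K4H72.Til.Tile C)}
    (hT : Pool.Agent.K4H72.Til.IsTiling T) (v : T) :
    {u : T | Pool.Agent.K4H72.Til.Adj u v}.Finite := by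
  classical
  have hvp := hT.polygon v.1 v.2
  obtain ⟨s, hs0, hs⟩ := hvp.2.2.2
  let f : T → Set ℂ := fun u => if h : Adj u v then Classical.choose h.2 else ∅
  refine Set.Finite.of_injOn (f := f)
    (t := (fun p : (ℂ →L[ℝ] ℝ) × ℝ => {w | w ∈ v.1.1 ∧ p.1 w = p.2}) '' (s : Set _)) ?_ ?_
    (s.finite_toSet.image _)
  · intro u hu
    have hu' : Adj u v := hu
    obtain ⟨h1, h2, h3, h4, h5⟩ := Classical.choose_spec hu'.2
    obtain ⟨p, hp, hpe⟩ := N1.edge_eq v.1.1 _ s hs0 hs h2 h3 h5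
    refine ⟨p, hp, ?_⟩
    simp only [f, dif_pos hu']
    exact hpe.symm
  · intro u hu u' hu' huu
    have hu1 : Adj u v := hu
    have hu2 : Adj u' v := hu'
    simp only [f, dif_pos hu1, dif_pos hu2] at huu
    obtain ⟨h1, h2, h3, h4, h5⟩ := Classical.choose_spec hu1.2
    obtain ⟨g1, g2, g3, g4, g5⟩ := Classical.choose_spec hu2.2
    rw [← huu] at g1 g2 g3 g4 g5
    set e := Classical.choose hu1.2 with he
    obtain ⟨p, hp, hpe⟩ := N1.edge_eq v.1.1 e s hs0 hs h2 h3 h5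
    obtain ⟨x, hx, y, hy, hxy⟩ := h3
    have hm := hs0 p hp
    have hxv : x ∈ v.1.1 := h2.subset hx
    have hyv : y ∈ v.1.1 := h2.subset hy
    have hxu : x ∈ u.1.1 := h1.subset hx
    have hyu : y ∈ u.1.1 := h1.subset hy
    have hxu' : x ∈ u'.1.1 := g1.subset hx
    have hyu' : y ∈ u'.1.1 := g1.subset hy
    have e1 : p.1 x = p.2 := by rw [hpe] at hx; exact hx.2
    have e2 : p.1 y = p.2 := by rw [hpe] at hy; exact hy.2
    have e3 : p.1 x = p.1 y := by rw [e1, e2]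
    have hvA : ∀ w ∈ v.1.1, p.1 w ≤ p.1 x := by
      intro w hw
      rw [hs] at hw
      rw [e1]
      exact hw p hp
    have hpu := hT.polygon u.1 u.2
    have hpu' := hT.polygon u'.1 u'.2
    have huv : u.1 ≠ v.1 := fun h => hu1.1 (Subtype.ext h)
    have huv' : u'.1 ≠ v.1 := fun h => hu2.1 (Subtype.ext h)
    have s1 : ∀ w ∈ u.1.1, p.1 x ≤ p.1 w := by
      rcases N1.side u.1.1 e h1 h4 p.1 hm x y hx hy hxy e3 with h | h
      · exact absurd (hT.disj u.1 u.2 v.1 v.2 huv)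
          (N1.meet u.1.1 v.1.1 hpu hvp p.1 hm x y hxu hyu hxv hyv hxy e3 h hvA)
      · exact h
    have s2 : ∀ w ∈ u'.1.1, p.1 x ≤ p.1 w := by
      rcases N1.side u'.1.1 e g1 g4 p.1 hm x y hx hy hxy e3 with h | h
      · exact absurd (hT.disj u'.1 u'.2 v.1 v.2 huv')
          (N1.meet u'.1.1 v.1.1 hpu' hvp p.1 hm x y hxu' hyu' hxv hyv hxy e3 h hvA)
      · exact h
    by_contra hne
    have hne' : u.1 ≠ u'.1 := fun h => hne (Subtype.ext h)
    refine N1.meet u.1.1 u'.1.1 hpu hpu' (-p.1) (neg_ne_zero.mpr hm) x y hxu hyu hxu' hyu' hxy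
      ?_ ?_ ?_ (hT.disj u.1 u.2 u'.1 u'.2 hne')
    · simp [e3]
    · intro w hw
      have := s1 w hw
      simp only [ContinuousLinearMap.neg_apply]
      linarith
    · intro w hw
      have := s2 w hw
      simp only [ContinuousLinearMap.neg_apply]
      linarith

end Pool.Agent.K4H59.TL
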