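import Pool.Agent.K4H3.TilT3

open Set

namespace Pool.Agent.K4H72.Til

theorem E_zero : E 0 = 0 := by
  have := E_sub 0 0
  simpa using this

/-- T13 with T1, T2, T4, T5 as hypotheses -/
theorem deform_aux
    (approx : ∀ (F : Set ℂ) (_hF : F.Finite) (η : ℝ) (_hη : 0 < η),
      ∃ M : ℕ, 0 < M ∧ ∃ φ : AddSubgroup.closure F →+ ℤ × ℤ,
        ∀ f (hf : f ∈ F), ‖(M : ℂ) * f - E (φ ⟨f, AddSubgroup.subset_closure hf⟩)‖ ≤ η)
    (choice : ∃ c : Set ℂ → ℂ, (∀ A : Set ℂ, A.Finite → A.Nonempty → c A ∈ A) ∧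
      ∀ (A : Set ℂ) (t : ℂ), A.Finite → A.Nonempty → c ((fun z => z + t) '' A) = c A + t)
    (lip : ∀ (P : Set ℂ) (D : ℝ) (_hD : 0 < D) (_hdense : ∀ x : ℂ, ∃ p ∈ P, ‖x - p‖ ≤ D / 4)
      (u : ℂ → ℂ) (η : ℝ) (_hη : 0 ≤ η) (_hu : ∀ p ∈ P, ∀ p' ∈ P, ‖p - p'‖ ≤ D → ‖u p - u p'‖ ≤ η),
      ∀ p ∈ P, ∀ p' ∈ P, ‖u p - u p'‖ ≤ η * (1 + 4 * ‖p - p'‖ / D))
    (mem_closure : ∀ (P : Set ℂ) (D : ℝ) (_hD : 0 < D)
      (_hdense : ∀ x : ℂ, ∃ p ∈ P, ‖x - p‖ ≤ D / 4)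
      (G : AddSubgroup ℂ) (_hG : ∀ p ∈ P, ∀ p' ∈ P, ‖p - p'‖ ≤ D → p - p' ∈ G),
      ∀ p ∈ P, ∀ p' ∈ P, p - p' ∈ G)
    (near : ∀ (P : Set ℂ) (D : ℝ) (_hD : 0 < D) (_hdense : ∀ x : ℂ, ∃ p ∈ P, ‖x - p‖ ≤ D / 4)
      (Φ : ℂ → ℤ × ℤ) (M : ℝ) (_hM : 1 ≤ M)
      (_hΦ : ∀ p ∈ P, ∀ p' ∈ P, ‖p - p'‖ ≤ D → ‖(M : ℂ) * (p - p') - E (Φ p - Φ p')‖ ≤ D / 8),
      ∀ v : ℤ × ℤ, ∃ p ∈ P, ‖E (Φ p - v)‖ ≤ M * D)
    (P : Set ℂ) (D : ℝ) (hD : 0 < D) (hdense : ∀ x : ℂ, ∃ p ∈ P, ‖x - p‖ ≤ D / 4)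
    (hfin : {d : ℂ | ∃ p ∈ P, ∃ p' ∈ P, d = p - p' ∧ ‖d‖ ≤ 8 * D}.Finite) :
    ∃ (h : ℝ) (g : ℤ × ℤ → ℂ), Def1 h g ∧ ∀ R2 : ℝ, ∃ R : ℝ, ∀ x y : ℂ,
      (∀ p : ℂ, ‖p‖ < R → (x + p ∈ P ↔ y + p ∈ P)) →
        ∃ τ : ℤ × ℤ, ∀ v, ‖g v - x‖ ≤ R2 → g (v + τ) = g v + (y - x) := by
  classical
  set F : Set ℂ := {d : ℂ | ∃ p ∈ P, ∃ p' ∈ P, d = p - p' ∧ ‖d‖ ≤ 8 * D} with hF
  -- η
  obtain ⟨η, hη0, hη1, hη2, hη3⟩ : ∃ η : ℝ, 0 < η ∧ η ≤ D / 8 ∧ η ≤ D ∧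
      η * (25 + 8 / D) ≤ 1 / 20 := by
    have hq : 0 < 25 + 8 / D := by positivity
    refine ⟨min (D / 8) (1 / 20 / (25 + 8 / D)), lt_min (by positivity) (by positivity),
      min_le_left _ _, (min_le_left _ _).trans (by linarith), ?_⟩
    calc min (D / 8) (1 / 20 / (25 + 8 / D)) * (25 + 8 / D)
        ≤ (1 / 20 / (25 + 8 / D)) * (25 + 8 / D) :=
          mul_le_mul_of_nonneg_right (min_le_right _ _) hq.le
      _ = 1 / 20 := by field_simp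
  obtain ⟨G, hG⟩ : ∃ G : AddSubgroup ℂ, G = AddSubgroup.closure F := ⟨_, rfl⟩
  obtain ⟨M, hM0, φ, hφ⟩ : ∃ M : ℕ, 0 < M ∧ ∃ φ : G →+ ℤ × ℤ,
      ∀ f (hf : f ∈ F) (hf' : f ∈ G), ‖(M : ℂ) * f - E (φ ⟨f, hf'⟩)‖ ≤ η := by
    subst hG
    obtain ⟨M, hM0, φ, hφ⟩ := approx F hfin η hη0
    exact ⟨M, hM0, φ, fun f hf _ => hφ f hf⟩
  have hFG : ∀ f ∈ F, f ∈ G := fun f hf => hG ▸ AddSubgroup.subset_closure hf
  have hM1 : (1 : ℝ) ≤ M := by exact_mod_cast hM0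
  have hMpos : (0 : ℝ) < M := by linarith
  have hMC : (M : ℂ) ≠ 0 := by exact_mod_cast hM0.ne'
  have hFmem : ∀ p ∈ P, ∀ p' ∈ P, ‖p - p'‖ ≤ 8 * D → p - p' ∈ F := by
    intro p hp p' hp' h
    exact ⟨p, hp, p', hp', rfl, h⟩
  have hGmem : ∀ p ∈ P, ∀ p' ∈ P, p - p' ∈ G := by
    refine mem_closure P D hD hdense G ?_
    intro p hp p' hp' h
    exact hFG _ (hFmem p hp p' hp' (by linarith))
  obtain ⟨p0, hp0, -⟩ := hdense 0
  -- ψ
  set ψ : ℂ → ℤ × ℤ := fun d => if h : d ∈ G then φ ⟨d, h⟩ else 0 with hψ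
  have hψsub : ∀ a ∈ G, ∀ b ∈ G, ψ (a - b) = ψ a - ψ b := by
    intro a ha b hb
    have hab : a - b ∈ G := G.sub_mem ha hb
    simp only [hψ, ha, hb, hab, dite_true]
    rw [← map_sub]
    rfl
  set Φ : ℂ → ℤ × ℤ := fun p => ψ (p - p0) with hΦdef
  have hΦsub : ∀ p ∈ P, ∀ p' ∈ P, Φ p - Φ p' = ψ (p - p') := by
    intro p hp p' hp'
    have : p - p' = (p - p0) - (p' - p0) := by ring
    rw [this, hψsub _ (hGmem p hp p0 hp0) _ (hGmem p' hp' p0 hp0)]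
  set u : ℂ → ℂ := fun p => (M : ℂ) * p - E (Φ p) with hu
  have hudiff : ∀ p ∈ P, ∀ p' ∈ P, u p - u p' = (M : ℂ) * (p - p') - E (Φ p - Φ p') := by
    intro p hp p' hp'
    rw [E_sub]; simp only [hu]; ring
  have hu8 : ∀ p ∈ P, ∀ p' ∈ P, ‖p - p'‖ ≤ 8 * D → ‖u p - u p'‖ ≤ η := by
    intro p hp p' hp' h
    rw [hudiff p hp p' hp', hΦsub p hp p' hp']
    have hf := hFmem p hp p' hp' h
    have hm : p - p' ∈ G := hFG _ hf
    have h1 := hφ _ hf hm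
    have h2 : ψ (p - p') = φ ⟨p - p', hm⟩ := by
      simp only [hψ, hm, dite_true]
    rw [h2]; exact h1
  have hulip : ∀ p ∈ P, ∀ p' ∈ P, ‖u p - u p'‖ ≤ η * (1 + 4 * ‖p - p'‖ / D) :=
    lip P D hD hdense u η hη0.le (fun p hp p' hp' h => hu8 p hp p' hp' (by linarith))
  have hnear : ∀ v : ℤ × ℤ, ∃ p ∈ P, ‖E (Φ p - v)‖ ≤ (M : ℝ) * D := by
    refine near P D hD hdense Φ (M : ℝ) hM1 ?_
    intro p hp p' hp' h
    have h1 := hu8 p hp p' hp' (by linarith)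
    rw [hudiff p hp p' hp'] at h1
    have h2 : (((M : ℝ) : ℂ)) = (M : ℂ) := by simp
    rw [h2]
    exact h1.trans hη1
  -- distance estimate
  have hdist : ∀ p ∈ P, ∀ p' ∈ P, ‖p - p'‖ ≤ 2 * (‖E (Φ p - Φ p')‖ / M) + 2 * D := by
    intro p hp p' hp'
    have h1 := hulip p hp p' hp'
    have h2 : (M : ℂ) * (p - p') = E (Φ p - Φ p') + (u p - u p') := by
      rw [hudiff p hp p' hp']; ring
    have h3 : (M : ℝ) * ‖p - p'‖ ≤ ‖E (Φ p - Φ p')‖ + ‖u p - u p'‖ := by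
      have := norm_add_le (E (Φ p - Φ p')) (u p - u p')
      rw [← h2, norm_mul] at this
      simpa using this
    have h4 : η * (1 + 4 * ‖p - p'‖ / D) ≤ D + 1 / 2 * ‖p - p'‖ := by
      have h5 : η * (4 * ‖p - p'‖ / D) ≤ 1 / 2 * ‖p - p'‖ := by
        have h6 : η / D ≤ 1 / 8 := by
          rw [div_le_iff₀ hD]; linarith
        have h7 := norm_nonneg (p - p')
        calc η * (4 * ‖p - p'‖ / D) = (η / D) * (4 * ‖p - p'‖) := by ring
          _ ≤ 1 / 8 * (4 * ‖p - p'‖) := mul_le_mul_of_nonneg_right h6 (by positivity)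
          _ = 1 / 2 * ‖p - p'‖ := by ring
      nlinarith
    have h8 := norm_nonneg (p - p')
    have h9 : (M : ℝ) * ‖p - p'‖ ≤ 2 * ‖E (Φ p - Φ p')‖ + 2 * D * M := by nlinarith
    have h10 : ‖p - p'‖ ≤ (2 * ‖E (Φ p - Φ p')‖ + 2 * D * M) / M := by
      rw [le_div_iff₀ hMpos]; linarith
    calc ‖p - p'‖ ≤ (2 * ‖E (Φ p - Φ p')‖ + 2 * D * M) / M := h10
      _ = 2 * (‖E (Φ p - Φ p')‖ / M) + 2 * D := by field_simp
  -- the sets N v
  set N : ℤ × ℤ → Set ℂ := fun v => {p | p ∈ P ∧ ‖E (Φ p - v)‖ ≤ (M : ℝ) * D} with hN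
  have hNne : ∀ v, (N v).Nonempty := by
    intro v
    obtain ⟨p, hp, h⟩ := hnear v
    exact ⟨p, hp, h⟩
  have hNd : ∀ v, ∀ p ∈ N v, ∀ p' ∈ N v, ‖p - p'‖ ≤ 6 * D := by
    intro v p hp p' hp'
    have h1 := hdist p hp.1 p' hp'.1
    have h2 : ‖E (Φ p - Φ p')‖ ≤ 2 * (M * D) := by
      have : Φ p - Φ p' = (Φ p - v) - (Φ p' - v) := by abel
      rw [this, E_sub]
      refine (norm_sub_le _ _).trans ?_
      linarith [hp.2, hp'.2]
    have h3 : ‖E (Φ p - Φ p')‖ / M ≤ 2 * D := by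
      rw [div_le_iff₀ hMpos]; linarith
    linarith
  have hNfin : ∀ v, (N v).Finite := by
    intro v
    obtain ⟨p1, hp1⟩ := hNne v
    refine (hfin.image (fun d => d + p1)).subset ?_
    intro p hp
    exact ⟨p - p1, hFmem p hp.1 p1 hp1.1 (by linarith [hNd v p hp p1 hp1]), by simp⟩
  obtain ⟨c, hc1, hc2⟩ := choice
  have hcv : ∀ v, ∃ p ∈ N v, c (u '' N v) = u p := by
    intro v
    obtain ⟨p, hp, h⟩ := hc1 (u '' N v) ((hNfin v).image u) ((hNne v).image u)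
    exact ⟨p, hp, h.symm⟩
  choose pv hpv hcpv using hcv
  set g : ℤ × ℤ → ℂ := fun v => (E v + c (u '' N v)) / (M : ℂ) with hg
  have hMg : ∀ v, (M : ℂ) * g v = E v + u (pv v) := by
    intro v
    simp only [hg, hcpv]
    field_simp
  refine ⟨1 / M, g, ⟨by positivity, ?_⟩, ?_⟩
  · intro v w
    by_cases hvw : v = w
    · subst hvw
      simp [E_zero]
    · have hE1 : 1 ≤ ‖E (v - w)‖ := by
        rcases E_cases (v - w) with h | ⟨-, h⟩ | h
        · exact absurd (sub_eq_zero.mp h) hvw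
        · rw [h]
        · nlinarith [norm_nonneg (E (v - w))]
      have h1 : (M : ℂ) * (g v - g w - ((1 / (M : ℝ) : ℝ) : ℂ) * E (v - w)) =
          u (pv v) - u (pv w) := by
        have h2 : (M : ℂ) * (((1 / (M : ℝ) : ℝ) : ℂ) * E (v - w)) = E (v - w) := by
          push_cast
          field_simp
        rw [mul_sub, mul_sub, hMg, hMg, h2, E_sub]
        ring
      have h3 : (M : ℝ) * ‖g v - g w - ((1 / (M : ℝ) : ℝ) : ℂ) * E (v - w)‖ =
          ‖u (pv v) - u (pv w)‖ := by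
        rw [← h1, norm_mul]; simp
      have h4 := hulip (pv v) (hpv v).1 (pv w) (hpv w).1
      have h5 := hdist (pv v) (hpv v).1 (pv w) (hpv w).1
      have h6 : ‖E (Φ (pv v) - Φ (pv w))‖ ≤ ‖E (v - w)‖ + 2 * (M * D) := by
        have : Φ (pv v) - Φ (pv w) = (v - w) + ((Φ (pv v) - v) - (Φ (pv w) - w)) := by abel
        rw [this, E_add, E_sub (Φ (pv v) - v)]
        refine (norm_add_le _ _).trans ?_
        have := norm_sub_le (E (Φ (pv v) - v)) (E (Φ (pv w) - w))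
        linarith [(hpv v).2, (hpv w).2]
      have h7 : ‖E (Φ (pv v) - Φ (pv w))‖ / M ≤ ‖E (v - w)‖ + 2 * D := by
        rw [div_le_iff₀ hMpos]
        nlinarith [norm_nonneg (E (v - w))]
      have h8 : ‖pv v - pv w‖ ≤ 2 * ‖E (v - w)‖ + 6 * D := by linarith
      have h9 : ‖u (pv v) - u (pv w)‖ ≤ 1 / 20 * ‖E (v - w)‖ := by
        calc ‖u (pv v) - u (pv w)‖ ≤ η * (1 + 4 * ‖pv v - pv w‖ / D) := h4
          _ ≤ η * (1 + 4 * (2 * ‖E (v - w)‖ + 6 * D) / D) := by gcongr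
          _ = η * (25 + 8 * ‖E (v - w)‖ / D) := by field_simp; ring
          _ ≤ η * ((25 + 8 / D) * ‖E (v - w)‖) := by
              apply mul_le_mul_of_nonneg_left _ hη0.le
              have : 8 * ‖E (v - w)‖ / D = 8 / D * ‖E (v - w)‖ := by ring
              rw [this]; nlinarith
          _ = (η * (25 + 8 / D)) * ‖E (v - w)‖ := by ring
          _ ≤ 1 / 20 * ‖E (v - w)‖ := mul_le_mul_of_nonneg_right hη3 (norm_nonneg _)
      rw [← h3] at h9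
      have h10 : ‖g v - g w - ((1 / (M : ℝ) : ℝ) : ℂ) * E (v - w)‖ ≤
          (1 / 20 * ‖E (v - w)‖) / M := by
        rw [le_div_iff₀ hMpos]; linarith
      calc ‖g v - g w - ((1 / (M : ℝ) : ℝ) : ℂ) * E (v - w)‖
          ≤ (1 / 20 * ‖E (v - w)‖) / M := h10
        _ = 1 / 20 * (1 / M) * ‖E (v - w)‖ := by ring
  · intro R2
    refine ⟨|R2| + 8 * D, ?_⟩
    intro x y hxy
    have hR2 := le_abs_self R2
    have hR2' := abs_nonneg R2
    obtain ⟨p1, hp1, hp1x⟩ := hdense x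
    have hmove : ∀ p ∈ P, ‖p - x‖ < |R2| + 8 * D → p + (y - x) ∈ P := by
      intro p hp hpx
      have := (hxy (p - x) hpx).mp (by simpa using hp)
      have e : y + (p - x) = p + (y - x) := by ring
      rwa [e] at this
    have hmove' : ∀ q ∈ P, ‖q - y‖ < |R2| + 8 * D → q - (y - x) ∈ P := by
      intro q hq hqy
      have := (hxy (q - y) hqy).mpr (by simpa using hq)
      have e : x + (q - y) = q - (y - x) := by ring
      rwa [e] at this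
    have hp1x' : ‖p1 - x‖ < |R2| + 8 * D := by
      rw [norm_sub_rev]; linarith
    have hp1' := hmove p1 hp1 hp1x'
    set τ : ℤ × ℤ := Φ (p1 + (y - x)) - Φ p1 with hτ
    have hΦmove : ∀ p ∈ P, p + (y - x) ∈ P → Φ (p + (y - x)) = Φ p + τ := by
      intro p hp hp'
      have h1 := hΦsub _ hp' _ hp1'
      have h2 := hΦsub _ hp _ hp1
      have h3 : (p + (y - x)) - (p1 + (y - x)) = p - p1 := by ring
      rw [h3, ← h2] at h1
      rw [hτ, ← sub_eq_zero]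
      have : Φ (p + (y - x)) - (Φ p + (Φ (p1 + (y - x)) - Φ p1)) =
        (Φ (p + (y - x)) - Φ (p1 + (y - x))) - (Φ p - Φ p1) := by abel
      rw [this, h1, sub_self]
    refine ⟨τ, ?_⟩
    intro v hv
    have hpg : ‖pv v - g v‖ ≤ D := by
      have h1 : (M : ℂ) * (pv v - g v) = E (Φ (pv v) - v) := by
        rw [mul_sub, hMg, E_sub]; simp only [hu]; ring
      have h2 : (M : ℝ) * ‖pv v - g v‖ = ‖E (Φ (pv v) - v)‖ := by
        rw [← h1, norm_mul]; simp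
      have h3 := (hpv v).2
      rw [← h2] at h3
      exact le_of_mul_le_mul_left h3 hMpos
    have hpx : ‖pv v - x‖ ≤ R2 + D := by
      have : pv v - x = (pv v - g v) + (g v - x) := by ring
      rw [this]
      refine (norm_add_le _ _).trans ?_
      linarith
    have hNx : ∀ p ∈ N v, ‖p - x‖ < |R2| + 8 * D := by
      intro p hp
      have h1 := hNd v p hp (pv v) (hpv v)
      have : p - x = (p - pv v) + (pv v - x) := by ring
      rw [this]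
      refine (norm_add_le _ _).trans_lt ?_
      linarith
    have hsub1 : ∀ p ∈ N v, p + (y - x) ∈ N (v + τ) := by
      intro p hp
      have h1 := hmove p hp.1 (hNx p hp)
      refine ⟨h1, ?_⟩
      rw [hΦmove p hp.1 h1]
      have : Φ p + τ - (v + τ) = Φ p - v := by abel
      rw [this]; exact hp.2
    have hsub2 : ∀ q ∈ N (v + τ), q - (y - x) ∈ N v := by
      intro q hq
      have h1 := hNd (v + τ) q hq _ (hsub1 _ (hpv v))
      have h2 : ‖q - y‖ < |R2| + 8 * D := by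
        have : q - y = (q - (pv v + (y - x))) + (pv v - x) := by ring
        rw [this]
        refine (norm_add_le _ _).trans_lt ?_
        linarith
      have h3 := hmove' q hq.1 h2
      refine ⟨h3, ?_⟩
      have h4 := hΦmove (q - (y - x)) h3 (by simpa using hq.1)
      rw [sub_add_cancel] at h4
      have h5 := hq.2
      rw [h4] at h5
      have : Φ (q - (y - x)) + τ - (v + τ) = Φ (q - (y - x)) - v := by abel
      rwa [this] at h5
    set t : ℂ := (M : ℂ) * (y - x) - E τ with ht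
    have humove : ∀ p ∈ N v, u (p + (y - x)) = u p + t := by
      intro p hp
      simp only [hu]
      rw [hΦmove p hp.1 (hsub1 p hp).1, E_add, ht]
      ring
    have himg : u '' N (v + τ) = (fun z => z + t) '' (u '' N v) := by
      ext z
      constructor
      · rintro ⟨q, hq, rfl⟩
        refine ⟨u (q - (y - x)), ⟨_, hsub2 q hq, rfl⟩, ?_⟩
        have := humove _ (hsub2 q hq)
        rw [sub_add_cancel] at this
        exact this.symm
      · rintro ⟨_, ⟨p, hp, rfl⟩, rfl⟩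
        exact ⟨p + (y - x), hsub1 p hp, humove p hp⟩
    have hc3 : c (u '' N (v + τ)) = c (u '' N v) + t := by
      rw [himg]
      exact hc2 _ t ((hNfin v).image u) ((hNne v).image u)
    simp only [hg]
    rw [hc3, E_add, ht]
    field_simp
    ring

end Pool.Agent.K4H72.Til
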