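import Pool.Agent.K4H72.Til.Spec

open Set

namespace Pool.Agent.K4H72.Til

theorem E_sub (v w : ℤ × ℤ) : E (v - w) = E v - E w := by
  simp only [E, Prod.fst_sub, Prod.snd_sub]
  push_cast
  ring

theorem E_add (v w : ℤ × ℤ) : E (v + w) = E v + E w := by
  simp only [E, Prod.fst_add, Prod.snd_add]
  push_cast
  ring

theorem E_re (v : ℤ × ℤ) : (E v).re = (v.1 : ℝ) + v.2 / 2 := by
  simp [E, ζ]
  ring

theorem E_im (v : ℤ × ℤ) : (E v).im = (v.2 : ℝ) * (Real.sqrt 3 / 2) := by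
  simp [E, ζ]

theorem sq_three : Real.sqrt 3 ^ 2 = 3 := Real.sq_sqrt (by norm_num)

theorem norm_E_sq (v : ℤ × ℤ) : ‖E v‖ ^ 2 = (v.1 : ℝ) ^ 2 + v.1 * v.2 + (v.2 : ℝ) ^ 2 := by
  rw [Complex.sq_norm, Complex.normSq_apply, E_re, E_im]
  have h := sq_three
  nlinarith [h]

/-- norm form values: 0, 1 (exactly on `six`), at least 3 -/
theorem E_cases (v : ℤ × ℤ) : v = 0 ∨ (v ∈ six ∧ ‖E v‖ = 1) ∨ 3 ≤ ‖E v‖ ^ 2 := by
  obtain ⟨a, b⟩ := v
  by_cases h : a ^ 2 + a * b + b ^ 2 ≤ 2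
  · have hb1 : b ≤ 1 := by nlinarith [sq_nonneg (2 * a + b)]
    have hb2 : -1 ≤ b := by nlinarith [sq_nonneg (2 * a + b)]
    have ha1 : a ≤ 1 := by nlinarith [sq_nonneg (a + 2 * b)]
    have ha2 : -1 ≤ a := by nlinarith [sq_nonneg (a + 2 * b)]
    have key : ∀ w : ℤ × ℤ, ‖E w‖ ^ 2 = 1 → ‖E w‖ = 1 := by
      intro w hw
      have h0 := norm_nonneg (E w)
      nlinarith [hw, h0]
    interval_cases a <;> interval_cases b
    all_goals first
      | (left; rfl)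
      | (right; left; refine ⟨by simp [six], key _ ?_⟩; rw [norm_E_sq]; norm_num; done)
      | (right; right; rw [norm_E_sq]; norm_num; done)
      | (exfalso; revert h; norm_num; done)
  · right; right
    rw [norm_E_sq]
    have h' : (3 : ℤ) ≤ a ^ 2 + a * b + b ^ 2 := by omega
    have h'' : ((3 : ℤ) : ℝ) ≤ ((a ^ 2 + a * b + b ^ 2 : ℤ) : ℝ) := by exact_mod_cast h'
    push_cast at h''
    simpa using h''

theorem E_finite (r : ℝ) : {v : ℤ × ℤ | ‖E v‖ ≤ r}.Finite := by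
  obtain ⟨K, hK⟩ := exists_nat_gt (2 * |r|)
  refine ((Set.finite_Icc (-(K : ℤ)) K).prod (Set.finite_Icc (-(K : ℤ)) K)).subset ?_
  rintro ⟨a, b⟩ hv
  simp only [Set.mem_setOf_eq] at hv
  have h1 : ‖E (a, b)‖ ^ 2 ≤ |r| ^ 2 := by
    have h0 := norm_nonneg (E (a, b))
    have : ‖E (a, b)‖ ≤ |r| := hv.trans (le_abs_self r)
    exact pow_le_pow_left₀ h0 this 2
  rw [norm_E_sq] at h1
  simp only at h1
  have hr := abs_nonneg r
  have hKr : (0 : ℝ) ≤ K := Nat.cast_nonneg K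
  have hb : (b : ℝ) ^ 2 ≤ (K : ℝ) ^ 2 := by nlinarith [sq_nonneg (2 * (a : ℝ) + b)]
  have ha : (a : ℝ) ^ 2 ≤ (K : ℝ) ^ 2 := by nlinarith [sq_nonneg ((a : ℝ) + 2 * b)]
  have hb' := abs_le_of_sq_le_sq' hb hKr
  have ha' := abs_le_of_sq_le_sq' ha hKr
  refine ⟨⟨?_, ?_⟩, ⟨?_, ?_⟩⟩
  · have := ha'.1; exact_mod_cast this
  · have := ha'.2; exact_mod_cast this
  · have := hb'.1; exact_mod_cast this
  · have := hb'.2; exact_mod_cast this

/-- nearest lattice point -/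
theorem E_near (z : ℂ) : ∃ v : ℤ × ℤ, ‖z - E v‖ ≤ 1 := by
  have h3 : (0 : ℝ) < Real.sqrt 3 := Real.sqrt_pos.mpr (by norm_num)
  set y : ℝ := 2 * z.im / Real.sqrt 3 with hy
  set x : ℝ := z.re - y / 2 with hx
  have hyim : z.im = y * (Real.sqrt 3 / 2) := by
    rw [hy]; field_simp
  have hxre : z.re = x + y / 2 := by rw [hx]; ring
  refine ⟨(round x, round y), ?_⟩
  have hs := abs_sub_round x
  have ht := abs_sub_round y
  set s : ℝ := x - round x with hs'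
  set t : ℝ := y - round y with ht'
  have h1 : ‖z - E (round x, round y)‖ ^ 2 ≤ 1 := by
    rw [Complex.sq_norm, Complex.normSq_apply, Complex.sub_re, Complex.sub_im, E_re, E_im]
    simp only
    have e1 : z.re - ((round x : ℝ) + (round y : ℝ) / 2) = s + t / 2 := by
      rw [hxre, hs', ht']; ring
    have e2 : z.im - (round y : ℝ) * (Real.sqrt 3 / 2) = t * (Real.sqrt 3 / 2) := by
      rw [hyim, ht']; ring
    rw [e1, e2]
    have h := sq_three
    have hs2 := abs_le.mp hs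
    have ht2 := abs_le.mp ht
    have e3 : t * (Real.sqrt 3 / 2) * (t * (Real.sqrt 3 / 2)) = t ^ 2 * (3 / 4) := by
      have : t * (Real.sqrt 3 / 2) * (t * (Real.sqrt 3 / 2)) = t ^ 2 * (Real.sqrt 3 ^ 2) / 4 := by ring
      rw [this, h]; ring
    rw [e3]
    nlinarith [hs2.1, hs2.2, ht2.1, ht2.2, mul_nonneg (sub_nonneg.mpr hs2.2) (sub_nonneg.mpr ht2.2)]
  have h0 := norm_nonneg (z - E (round x, round y))
  nlinarith [h1, h0]

end Pool.Agent.K4H72.Til
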